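import Pool.Agent.H571Z.Iso.A6

set_option autoImplicit false
set_option linter.unusedVariables false
open MeasureTheory Filter Topology

namespace Pool.Agent.Results.MP_a6dd47_an.Isolated

/-- `φ` is smooth with compact support contained in `Ω`. -/
def IsTest {N : ℕ} (Ω : Set (EuclideanSpace ℝ (Fin N))) (φ : EuclideanSpace ℝ (Fin N) → ℝ) : Prop :=
  ContDiff ℝ (⊤ : ℕ∞) φ ∧ HasCompactSupport φ ∧ tsupport φ ⊆ Ω

/-- `Ω` is `q`-admissible: every sequence of test functions with Dirichlet energy at most one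
has a subsequence converging in `L^q` (compactness of the embedding into `L^q`). -/
def Admissible {N : ℕ} (q : ℝ) (Ω : Set (EuclideanSpace ℝ (Fin N))) : Prop :=
  ∀ φ : ℕ → EuclideanSpace ℝ (Fin N) → ℝ, (∀ n, IsTest Ω (φ n)) →
    (∀ n, ∫ x, ‖gradient (φ n) x‖ ^ 2 ≤ 1) →
    ∃ (u : EuclideanSpace ℝ (Fin N) → ℝ) (k : ℕ → ℕ), MemLp u (ENNReal.ofReal q) volume ∧
      StrictMono k ∧
      Tendsto (fun n => eLpNorm (fun x => φ (k n) x - u x) (ENNReal.ofReal q) volume) atTop (𝓝 0)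

/-- `u` belongs to `D^{1,2}_0(Ω)` with gradient `G`: the pair `(u, G)` is the limit in
`L^q × L^2` of pairs `(φ, ∇φ)` with `φ` a test function. -/
def InD {N : ℕ} (q : ℝ) (Ω : Set (EuclideanSpace ℝ (Fin N)))
    (u : EuclideanSpace ℝ (Fin N) → ℝ)
    (G : EuclideanSpace ℝ (Fin N) → EuclideanSpace ℝ (Fin N)) : Prop :=
  MemLp u (ENNReal.ofReal q) volume ∧ MemLp G 2 volume ∧
    ∃ φ : ℕ → EuclideanSpace ℝ (Fin N) → ℝ, (∀ n, IsTest Ω (φ n)) ∧
      Tendsto (fun n => eLpNorm (fun x => φ n x - u x) (ENNReal.ofReal q) volume) atTop (𝓝 0) ∧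
      Tendsto (fun n => eLpNorm (fun x => gradient (φ n) x - G x) 2 volume) atTop (𝓝 0)

/-- The set of `q`-eigenvalues of `Ω`. -/
def Spec {N : ℕ} (q : ℝ) (Ω : Set (EuclideanSpace ℝ (Fin N))) : Set ℝ :=
  {lam | ∃ (u : EuclideanSpace ℝ (Fin N) → ℝ)
    (G : EuclideanSpace ℝ (Fin N) → EuclideanSpace ℝ (Fin N)),
    InD q Ω u G ∧ ¬ (u =ᵐ[volume] 0) ∧
    ∀ ψ : EuclideanSpace ℝ (Fin N) → ℝ, IsTest Ω ψ →
      ∫ x, inner ℝ (G x) (gradient ψ x) =
        lam * (eLpNorm u (ENNReal.ofReal q) volume).toReal ^ (2 - q) *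
          ∫ x, |u x| ^ (q - 2) * u x * ψ x}

/-- The first `q`-eigenvalue. -/
noncomputable def lamOne {N : ℕ} (q : ℝ) (Ω : Set (EuclideanSpace ℝ (Fin N))) : ℝ :=
  sInf {t | ∃ (u : EuclideanSpace ℝ (Fin N) → ℝ)
    (G : EuclideanSpace ℝ (Fin N) → EuclideanSpace ℝ (Fin N)),
    InD q Ω u G ∧ eLpNorm u (ENNReal.ofReal q) volume = 1 ∧ t = ∫ x, ‖G x‖ ^ 2}

/-- The first `q`-eigenvalue of a `q`-admissible open set is isolated, for every `q > 2`. -/
theorem result : ∀ (N : ℕ) (q : ℝ), 2 < q → ∀ (Ω : Set (EuclideanSpace ℝ (Fin N))), IsOpen Ω →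
    Admissible q Ω →
    ∃ ε : ℝ, 0 < ε ∧ ∀ lam ∈ Spec q Ω, lam = lamOne q Ω ∨ lamOne q Ω + ε ≤ lam := by
  intro N q hq Ω hΩ hadm
  have hq0 : (0 : ℝ) ≤ q := by linarith
  have hqq : ((q.toNNReal : NNReal) : ℝ) = q := Real.coe_toNNReal _ hq0
  have hF : Fact (1 ≤ ((q.toNNReal : NNReal) : ENNReal)) := ⟨by
    have : (1 : NNReal) ≤ q.toNNReal := by
      rw [← NNReal.coe_le_coe, hqq]; simp; linarith
    exact_mod_cast this⟩
  have hK := Pool.Agent.H571Z.Iso.compact_of_seq (q := q.toNNReal) (Ω := Ω) hadm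
  obtain ⟨H, i1, i2, i3, J, D, hD, hiff, hdense⟩ :=
    Pool.Agent.H571Z.Iso.exists_dq (q := q.toNNReal) (Ω := Ω) (by rw [hqq]; exact hq) hK
  rw [hqq] at hD
  have hiff' : ∀ u G, InD q Ω u G ↔ ∃ w : H, u =ᵐ[volume] J w ∧ G =ᵐ[volume] D w := hiff
  have hnormD : ∀ (w : H) (G : EuclideanSpace ℝ (Fin N) → EuclideanSpace ℝ (Fin N)),
      G =ᵐ[volume] D w → ∫ x, ‖G x‖ ^ 2 = ‖w‖ ^ 2 := by
    intro w G hG
    rw [← D.norm_map w, ← real_inner_self_eq_norm_sq, L2.inner_def]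
    apply integral_congr_ae
    filter_upwards [hG] with x hx
    rw [hx, real_inner_self_eq_norm_sq]
  have hnormq : ∀ (w : H) (u : EuclideanSpace ℝ (Fin N) → ℝ), u =ᵐ[volume] J w →
      (eLpNorm u (ENNReal.ofReal q) volume).toReal = ‖J w‖ := by
    intro w u h1
    rw [eLpNorm_congr_ae h1, Lp.norm_def]
    rfl
  have hset : lamOne q Ω = sInf {t : ℝ | ∃ w : H, ‖J w‖ = 1 ∧ t = ‖w‖ ^ 2} := by
    unfold lamOne
    congr 1
    ext t
    constructor
    · rintro ⟨u, G, h1, h2, h3⟩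
      obtain ⟨w, huw, hGw⟩ := (hiff' u G).mp h1
      refine ⟨w, ?_, ?_⟩
      · rw [← hnormq w u huw, h2]; rfl
      · rw [h3, hnormD w G hGw]
    · rintro ⟨w, h1, h2⟩
      refine ⟨J w, D w, (hiff' _ _).mpr ⟨w, Filter.EventuallyEq.rfl, Filter.EventuallyEq.rfl⟩, ?_, ?_⟩
      · rw [← hnormq w _ Filter.EventuallyEq.rfl] at h1
        exact (ENNReal.toReal_eq_one_iff _).1 h1
      · rw [h2, hnormD w _ Filter.EventuallyEq.rfl]
  obtain ⟨ε, hε, hmain⟩ := Pool.Agent.H571Z.Iso.isolated hD hset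
  refine ⟨ε, hε, ?_⟩
  rintro lam ⟨u, G, hmem, hu0, hcrit⟩
  obtain ⟨w, huw, hGw⟩ := (hiff' u G).mp hmem
  rw [hnormq w u huw] at hcrit
  have hJw : J w ≠ 0 := by
    intro h0
    apply hu0
    rw [h0] at huw
    exact huw.trans (Lp.coeFn_zero _ _ _)
  have hpos : 0 < ‖J w‖ := norm_pos_iff.2 hJw
  have heq : ∀ φ : H, inner ℝ w φ =
      (lam * ‖J w‖ ^ (2 - q)) * ∫ x, |J w x| ^ (q - 2) * J w x * J φ x := by
    refine Pool.Agent.H571Z.Iso.extend_eq hD w _ _ hdense ?_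
    rintro h ⟨ψ, h1, h4, h5⟩
    have h6 := hcrit ψ h1
    have h7 : ∫ x, inner ℝ (G x) (gradient ψ x) = inner ℝ w h := by
      rw [← D.inner_map_map w h, L2.inner_def]
      apply integral_congr_ae
      filter_upwards [hGw, h5] with x e1 e2
      rw [e1, e2]
    rw [h7] at h6
    rw [h6]
    congr 1
    apply integral_congr_ae
    filter_upwards [huw, h4] with x e1 e2
    rw [e1, e2]
  set c : ℝ := ‖J w‖⁻¹ with hc
  have hc0 : 0 < c := inv_pos.2 hpos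
  have hJc : ‖J (c • w)‖ = 1 := by
    rw [map_smul, norm_smul, Real.norm_of_nonneg hc0.le, hc, inv_mul_cancel₀ hpos.ne']
  have heq2 : ∀ φ : H, inner ℝ (c • w) φ =
      lam * ∫ x, |J (c • w) x| ^ (q - 2) * J (c • w) x * J φ x := by
    intro φ
    have h1 : ∫ x, |J (c • w) x| ^ (q - 2) * J (c • w) x * J φ x =
        ∫ x, (c ^ (q - 2) * c) * (|J w x| ^ (q - 2) * J w x * J φ x) := by
      refine integral_congr_ae ?_
      filter_upwards [Pool.Agent.H571Z.Iso.jsmul (J := J) c w] with x hx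
      rw [hx, abs_mul, abs_of_pos hc0, Real.mul_rpow hc0.le (abs_nonneg _)]
      ring
    have h2 : c ^ (q - 2) = ‖J w‖ ^ (2 - q) := by
      rw [hc, Real.inv_rpow hpos.le, ← Real.rpow_neg hpos.le]
      congr 1; ring
    rw [h1, integral_const_mul, real_inner_smul_left, heq φ, h2]
    ring
  have hlam : ‖c • w‖ ^ 2 = lam := by
    rw [← real_inner_self_eq_norm_sq, heq2]
    have h1 : ∫ x, |J (c • w) x| ^ (q - 2) * J (c • w) x * J (c • w) x =
        ∫ x, |J (c • w) x| ^ q := by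
      refine integral_congr_ae (Eventually.of_forall fun x => ?_)
      simp only
      rw [mul_assoc, ← pow_two, ← sq_abs, ← Real.rpow_natCast, ← Real.rpow_add' (abs_nonneg _)]
      · norm_num
      · push_cast; linarith
    rw [h1, ← Pool.Agent.H571Z.Iso.norm_pow hD, hJc, Real.one_rpow, mul_one]
  have hfin := hmain (c • w) hJc (by rw [hlam]; exact heq2)
  rw [hlam] at hfin
  by_cases hlt : lam < lamOne q Ω + ε
  · exact Or.inl (hfin hlt)
  · exact Or.inr (not_lt.1 hlt)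

end Pool.Agent.Results.MP_a6dd47_an.Isolated
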